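import Pool.Agent.helper84.TP.SpecC

/-! # Row tp:HN2: HNN extension fixing `a` and taking `b` to `b'` -/

set_option autoImplicit false

namespace Pool.Agent.TP

open Function

theorem HN2_range {G : Type} [Group G] (a b : G) (θ : Multiplicative (ℤ × ℤ) →* G)
    (h : ∀ m l : ℤ, θ (Multiplicative.ofAdd (m, l)) = a ^ m * b ^ l) :
    θ.range = Subgroup.closure {a, b} := by
  apply le_antisymm
  · rintro _ ⟨y, rfl⟩
    have e : θ y = a ^ (Multiplicative.toAdd y).1 * b ^ (Multiplicative.toAdd y).2 :=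
      h (Multiplicative.toAdd y).1 (Multiplicative.toAdd y).2
    have ha : a ∈ Subgroup.closure ({a, b} : Set G) := Subgroup.subset_closure (Set.mem_insert a {b})
    have hb : b ∈ Subgroup.closure ({a, b} : Set G) :=
      Subgroup.subset_closure (Set.mem_insert_of_mem a (Set.mem_singleton b))
    rw [e]
    exact Subgroup.mul_mem _ (Subgroup.zpow_mem _ ha _) (Subgroup.zpow_mem _ hb _)
  · rw [Subgroup.closure_le]
    intro x hx
    rcases hx with hx | hx
    · refine ⟨Multiplicative.ofAdd (1, 0), ?_⟩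
      rw [h, zpow_one, zpow_zero, mul_one]
      exact hx.symm
    · refine ⟨Multiplicative.ofAdd (0, 1), ?_⟩
      rw [h, zpow_one, zpow_zero, one_mul]
      exact (Set.mem_singleton_iff.1 hx).symm

theorem HN2 (hHNN : HNN_stmt) (hZ2H : Z2H_stmt) : HN2_stmt := by
  intro G _ a b b' hab hab' hi hi'
  obtain ⟨θ₁, h1, h1i⟩ := hZ2H G a b hab
  obtain ⟨θ₂, h2, h2i⟩ := hZ2H G a b' hab'
  obtain ⟨G', inst, ι, s, hs, hB, hδ⟩ := hHNN (Multiplicative (ℤ × ℤ)) G θ₁ θ₂ (h1i hi) (h2i hi')
  refine ⟨G', inst, ι, s, ?_, ?_, ?_, hδ⟩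
  · have h := hs (Multiplicative.ofAdd (1, 0))
    rw [h1, h2, zpow_one, zpow_zero, mul_one, zpow_zero, mul_one] at h
    exact h
  · have h := hs (Multiplicative.ofAdd (0, 1))
    rw [h1, h2, zpow_one, zpow_zero, one_mul, zpow_one, one_mul] at h
    exact h
  · rw [← HN2_range a b θ₁ h1, ← HN2_range a b' θ₂ h2]
    exact hB

end Pool.Agent.TP
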